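import Pool.Agent.H121.SH.IfM
import Pool.Agent.H333.SH.OneCore

/-! SM-ONEA: one site moments for sub-probability measures. -/

set_option autoImplicit false

open scoped ENNReal
open MeasureTheory Set

namespace Pool.Agent.H872.SH

open Pool.Agent.H333.SH (set_le ne_ae lower ptw near_meas ann_meas small ann)

/-- the basic moment -/
theorem mom {D lam s : ℝ} (hD : 0 < D) (hl : 1 ≤ lam) (hs : 0 < s) (hs1 : s < 1)
    (μ : Measure ℝ) (hun : μ univ ≤ 1)
    (h : ∀ A : Set ℝ, MeasurableSet A → μ A ≤ ENNReal.ofReal D * volume A) (β : ℂ) :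
    ∫⁻ v : ℝ, ENNReal.ofReal (‖((lam * v : ℝ) : ℂ) - β‖⁻¹ ^ s) ∂μ ≤
      ENNReal.ofReal (lam ^ (-s) * (2 * D / (1 - s) + 1)) := by
  have hl0 : 0 < lam := by linarith
  have hs2 : 0 < 1 - s := by linarith
  set c := β.re / lam with hc
  set B : Set ℝ := {v : ℝ | |v - c| < 1} with hB
  have hBm : MeasurableSet B := near_meas c 1
  have h1 : ∫⁻ v : ℝ, ENNReal.ofReal (‖((lam * v : ℝ) : ℂ) - β‖⁻¹ ^ s) ∂μ ≤
      ∫⁻ v : ℝ, ENNReal.ofReal (lam ^ (-s)) * ENNReal.ofReal (|v - c| ^ (-s)) ∂μ := by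
    refine lintegral_mono_ae ?_
    filter_upwards [ne_ae h c] with v hv
    rw [← ENNReal.ofReal_mul (by positivity)]
    exact ENNReal.ofReal_le_ofReal (ptw hl hs.le β hv)
  have hmeas : Measurable fun v : ℝ => ENNReal.ofReal (|v - c| ^ (-s)) := by fun_prop
  rw [lintegral_const_mul _ hmeas] at h1
  have h2 : ∫⁻ v : ℝ, ENNReal.ofReal (|v - c| ^ (-s)) ∂μ ≤ ENNReal.ofReal (2 * D / (1 - s) + 1) := by
    rw [← lintegral_add_compl _ hBm, ENNReal.ofReal_add (by positivity) zero_le_one]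
    refine add_le_add ?_ ?_
    · calc ∫⁻ v in B, ENNReal.ofReal (|v - c| ^ (-s)) ∂μ
          ≤ ENNReal.ofReal D * ∫⁻ v in B, ENNReal.ofReal (|v - c| ^ (-s)) := set_le h B _
        _ ≤ ENNReal.ofReal D * ENNReal.ofReal (2 * ((1 : ℝ) ^ (1 - s) / (1 - s))) := by
            gcongr
            exact H354.ME.lintb s hs1 1 one_pos c
        _ = ENNReal.ofReal (2 * D / (1 - s)) := by
            rw [← ENNReal.ofReal_mul hD.le, Real.one_rpow]
            congr 1
            ring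
    · calc ∫⁻ v in Bᶜ, ENNReal.ofReal (|v - c| ^ (-s)) ∂μ ≤ ∫⁻ _v in Bᶜ, ENNReal.ofReal 1 ∂μ := by
            refine setLIntegral_mono' hBm.compl ?_
            intro v hv
            have hv' : 1 ≤ |v - c| := by simpa [hB] using hv
            refine ENNReal.ofReal_le_ofReal ?_
            exact Real.rpow_le_one_of_one_le_of_nonpos hv' (by linarith)
        _ = ENNReal.ofReal 1 * μ Bᶜ := by rw [setLIntegral_const]
        _ ≤ ENNReal.ofReal 1 * 1 := by
            gcongr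
            exact (measure_mono (subset_univ _)).trans hun
        _ = ENNReal.ofReal 1 := mul_one _
  calc ∫⁻ v : ℝ, ENNReal.ofReal (‖((lam * v : ℝ) : ℂ) - β‖⁻¹ ^ s) ∂μ
      ≤ ENNReal.ofReal (lam ^ (-s)) * ∫⁻ v : ℝ, ENNReal.ofReal (|v - c| ^ (-s)) ∂μ := h1
    _ ≤ ENNReal.ofReal (lam ^ (-s)) * ENNReal.ofReal (2 * D / (1 - s) + 1) := by gcongr
    _ = _ := by rw [← ENNReal.ofReal_mul (by positivity)]

/-- the truncated moment -/
theorem trunc {D lam h : ℝ} (hD : 0 < D) (hl : 1 ≤ lam) (hh : 0 < h) (hh1 : h ≤ 1 / 2)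
    (μ : Measure ℝ) (hun : μ univ ≤ 1)
    (hμ : ∀ A : Set ℝ, MeasurableSet A → μ A ≤ ENNReal.ofReal D * volume A) (β : ℂ) :
    ∫⁻ v in {v : ℝ | 1 / lam < ‖((lam * v : ℝ) : ℂ) - β‖},
      ENNReal.ofReal (‖((lam * v : ℝ) : ℂ) - β‖⁻¹ ^ (1 - h)) ∂μ ≤
        ENNReal.ofReal (2 * D / lam * (lam ^ (-h) + (lam ^ h - lam ^ (-h)) / h) +
          lam ^ (h - 1)) := by
  have hl0 : 0 < lam := by linarith
  set c := β.re / lam with hc
  set S : Set ℝ := {v : ℝ | 1 / lam < ‖((lam * v : ℝ) : ℂ) - β‖} with hS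
  set F : ℝ → ℝ≥0∞ := fun v => ENNReal.ofReal (‖((lam * v : ℝ) : ℂ) - β‖⁻¹ ^ (1 - h)) with hF
  set A0 : Set ℝ := {v : ℝ | |v - c| ≤ 1 / lam ^ 2} with hA0
  set A1 : Set ℝ := {v : ℝ | |v - c| < 1 ∧ 1 / lam ^ 2 < |v - c|} with hA1
  set A2 : Set ℝ := {v : ℝ | |v - c| < 1}ᶜ with hA2
  have hSm : MeasurableSet S := measurableSet_lt (by fun_prop) (by fun_prop)
  have hA0m : MeasurableSet A0 := measurableSet_le (by fun_prop) (by fun_prop)
  have hA1m : MeasurableSet A1 := ann_meas _ _ _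
  have hA2m : MeasurableSet A2 := (near_meas c 1).compl
  have hSsub : S ⊆ (S ∩ A0) ∪ (A1 ∪ A2) := by
    intro v hv
    by_cases h0 : |v - c| ≤ 1 / lam ^ 2
    · exact Or.inl ⟨hv, h0⟩
    · rw [not_le] at h0
      by_cases h1 : |v - c| < 1
      · exact Or.inr (Or.inl ⟨h1, h0⟩)
      · exact Or.inr (Or.inr h1)
  have e0 : ∫⁻ v in S ∩ A0, F v ∂μ ≤ ENNReal.ofReal (2 * D / lam * lam ^ (-h)) := by
    calc ∫⁻ v in S ∩ A0, F v ∂μ ≤ ∫⁻ _v in S ∩ A0, ENNReal.ofReal (lam ^ (1 - h)) ∂μ := by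
          refine setLIntegral_mono' (hSm.inter hA0m) ?_
          intro v hv
          have hv1 : 1 / lam < ‖((lam * v : ℝ) : ℂ) - β‖ := hv.1
          have hp : 0 < 1 / lam := by positivity
          have h2 : ‖((lam * v : ℝ) : ℂ) - β‖⁻¹ ≤ lam := by
            have := inv_anti₀ hp hv1.le
            rwa [one_div, inv_inv] at this
          exact ENNReal.ofReal_le_ofReal (Real.rpow_le_rpow (by positivity) h2 (by linarith))
      _ = ENNReal.ofReal (lam ^ (1 - h)) * μ (S ∩ A0) := by rw [setLIntegral_const]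
      _ ≤ ENNReal.ofReal (lam ^ (1 - h)) * ENNReal.ofReal (2 * D / lam ^ 2) := by
          gcongr
          exact (measure_mono inter_subset_right).trans (small hD hl μ hμ β)
      _ = ENNReal.ofReal (2 * D / lam * lam ^ (-h)) := by
          rw [← ENNReal.ofReal_mul (by positivity)]
          congr 1
          rw [show (1 - h) = 1 + (-h) by ring, Real.rpow_add hl0, Real.rpow_one]
          field_simp
  have hle1 : ∀ {B : Set ℝ}, MeasurableSet B → ∫⁻ v in B, F v ∂μ ≤
      ENNReal.ofReal (lam ^ (h - 1)) * ∫⁻ v in B, ENNReal.ofReal (|v - c| ^ (-(1 - h))) ∂μ := by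
    intro B hB
    have hmeas : Measurable fun v : ℝ => ENNReal.ofReal (|v - c| ^ (-(1 - h))) := by fun_prop
    rw [← lintegral_const_mul _ hmeas]
    refine lintegral_mono_ae ?_
    filter_upwards [ae_restrict_of_ae (ne_ae hμ c)] with v hv
    rw [← ENNReal.ofReal_mul (by positivity)]
    have h2 := ptw hl (by linarith : (0 : ℝ) ≤ 1 - h) β hv
    rw [show h - 1 = -(1 - h) by ring]
    exact ENNReal.ofReal_le_ofReal h2
  have e1 : ∫⁻ v in A1, F v ∂μ ≤
      ENNReal.ofReal (2 * D / lam * ((lam ^ h - lam ^ (-h)) / h)) := by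
    have hpw : (1 / lam ^ 2) ^ h = lam ^ (-h) * lam ^ (-h) := by
      rw [one_div, Real.inv_rpow (by positivity), ← Real.rpow_add hl0, ← Real.rpow_natCast,
        ← Real.rpow_mul hl0.le, ← Real.rpow_neg hl0.le]
      congr 1
      push_cast
      ring
    have hl2 : 1 / lam ^ 2 ≤ 1 := by
      rw [div_le_one (by positivity)]
      exact one_le_pow₀ hl
    have hpos : 0 ≤ 1 - lam ^ (-h) * lam ^ (-h) := by
      have h3 : lam ^ (-h) ≤ 1 := Real.rpow_le_one_of_one_le_of_nonpos hl (by linarith)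
      have h4 : 0 ≤ lam ^ (-h) := by positivity
      nlinarith
    calc ∫⁻ v in A1, F v ∂μ
        ≤ ENNReal.ofReal (lam ^ (h - 1)) *
            ∫⁻ v in A1, ENNReal.ofReal (|v - c| ^ (-(1 - h))) ∂μ := hle1 hA1m
      _ ≤ ENNReal.ofReal (lam ^ (h - 1)) * (ENNReal.ofReal D *
            ∫⁻ v in A1, ENNReal.ofReal (|v - c| ^ (-(1 - h)))) := by
          gcongr
          exact set_le hμ A1 _
      _ ≤ ENNReal.ofReal (lam ^ (h - 1)) * (ENNReal.ofReal D *
            ENNReal.ofReal (2 * (((1 : ℝ) ^ (1 - (1 - h)) - (1 / lam ^ 2) ^ (1 - (1 - h))) /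
              (1 - (1 - h))))) := by
          gcongr
          exact ann (by linarith) (by positivity) hl2 c
      _ = ENNReal.ofReal (2 * D / lam * ((lam ^ h - lam ^ (-h)) / h)) := by
          rw [← ENNReal.ofReal_mul hD.le, ← ENNReal.ofReal_mul (by positivity)]
          congr 1
          rw [show (1 - (1 - h)) = h by ring, Real.one_rpow, hpw,
            show h - 1 = h + (-1) by ring, Real.rpow_add hl0, Real.rpow_neg_one]
          have h5 : lam ^ h * lam ^ (-h) = 1 := by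
            rw [← Real.rpow_add hl0, add_neg_cancel, Real.rpow_zero]
          field_simp
          linear_combination (-1 * lam ^ (-h)) * h5
  have e2 : ∫⁻ v in A2, F v ∂μ ≤ ENNReal.ofReal (lam ^ (h - 1)) := by
    calc ∫⁻ v in A2, F v ∂μ
        ≤ ENNReal.ofReal (lam ^ (h - 1)) *
            ∫⁻ v in A2, ENNReal.ofReal (|v - c| ^ (-(1 - h))) ∂μ := hle1 hA2m
      _ ≤ ENNReal.ofReal (lam ^ (h - 1)) * ∫⁻ _v in A2, 1 ∂μ := by
          refine mul_le_mul' le_rfl ?_
          refine setLIntegral_mono' hA2m ?_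
          intro v hv
          have hv' : 1 ≤ |v - c| := by simpa [hA2] using hv
          rw [← ENNReal.ofReal_one]
          refine ENNReal.ofReal_le_ofReal ?_
          exact Real.rpow_le_one_of_one_le_of_nonpos hv' (by linarith)
      _ = ENNReal.ofReal (lam ^ (h - 1)) * μ A2 := by rw [setLIntegral_const, one_mul]
      _ ≤ ENNReal.ofReal (lam ^ (h - 1)) * 1 := by
          gcongr
          exact (measure_mono (subset_univ _)).trans hun
      _ = _ := mul_one _
  have hmono : lam ^ (-h) ≤ lam ^ h := Real.rpow_le_rpow_of_exponent_le hl (by linarith)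
  have hn1 : 0 ≤ 2 * D / lam * ((lam ^ h - lam ^ (-h)) / h) := by
    have : 0 ≤ lam ^ h - lam ^ (-h) := by linarith
    positivity
  calc ∫⁻ v in S, F v ∂μ ≤ ∫⁻ v in (S ∩ A0) ∪ (A1 ∪ A2), F v ∂μ := lintegral_mono_set hSsub
    _ ≤ ∫⁻ v in S ∩ A0, F v ∂μ + (∫⁻ v in A1, F v ∂μ + ∫⁻ v in A2, F v ∂μ) :=
        (lintegral_union_le _ _ _).trans (add_le_add le_rfl (lintegral_union_le _ _ _))
    _ ≤ ENNReal.ofReal (2 * D / lam * lam ^ (-h)) +
          (ENNReal.ofReal (2 * D / lam * ((lam ^ h - lam ^ (-h)) / h)) +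
            ENNReal.ofReal (lam ^ (h - 1))) := add_le_add e0 (add_le_add e1 e2)
    _ = _ := by
        rw [← ENNReal.ofReal_add hn1 (by positivity), ← ENNReal.ofReal_add (by positivity)
          (by positivity)]
        congr 1
        ring


theorem oneA : Pool.Agent.H121.SH.S_oneA := by
  intro D lam h hD hl hh hh1 μ hμ' β
  obtain ⟨hun, hμ⟩ := hμ'
  have hl0 : 0 < lam := by linarith
  refine ⟨?_, ?_, ?_⟩
  · refine (mom hD hl (by linarith) (by linarith) μ hun hμ β (s := 1 - h)).trans (le_of_eq ?_)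
    unfold Pool.Agent.H121.SH.cC
    congr 1
    rw [show -(1 - h) = h + (-1) by ring, show h - 1 = h + (-1) by ring,
      show 1 - (1 - h) = h by ring, Real.rpow_add hl0, Real.rpow_neg_one]
    field_simp
  · exact trunc hD hl hh hh1 μ hun hμ β
  · refine (measure_mono ?_).trans (small hD hl μ hμ β)
    intro v hv
    have hv' : ‖((lam * v : ℝ) : ℂ) - β‖ ≤ 1 / lam := hv
    have h1 := (lower hl β v).trans hv'
    change |v - β.re / lam| ≤ 1 / lam ^ 2
    rw [le_div_iff₀ (by positivity)]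
    have h2 : lam * |v - β.re / lam| * lam ≤ 1 / lam * lam :=
      mul_le_mul_of_nonneg_right h1 hl0.le
    have h3 : 1 / lam * lam = 1 := by field_simp
    rw [h3] at h2
    calc |v - β.re / lam| * lam ^ 2 = lam * |v - β.re / lam| * lam := by ring
      _ ≤ 1 := h2

end Pool.Agent.H872.SH
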